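import Pool.Agent.V5helper79.PQ.Stm
import Pool.Agent.V5helper79.PP.Simple

/-!
# Project PQ, job CON: the graph of a polyhedron is connected
-/

set_option autoImplicit false

namespace V5helper4.PQ

open Pool.Agent.R118.PM Filter Topology Pool.Agent.V5helper79.PP.Conv

variable {ι : Type} [Fintype ι]

/-- a nonempty intersection of faces contains a vertex -/
theorem exists_vertex {P : Pool.Agent.R118.PM.Poly ι} (hP : IsPolyhedron P) {S : Set E3} (hcl : IsClosed S)
    (hS : IsExtreme ℝ P.body S) (hne : S.Nonempty) : ∃ u ∈ P.body.extremePoints ℝ, u ∈ S := by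
  have hcpt : IsCompact S := Metric.isCompact_of_isClosed_isBounded hcl (hP.bounded.subset hS.1)
  obtain ⟨u, hu⟩ := hcpt.extremePoints_nonempty hne
  exact ⟨u, hS.extremePoints_subset_extremePoints hu, hu.1⟩

theorem panel_vertices {P : Pool.Agent.R118.PM.Poly ι} (hP : IsPolyhedron P) {G : Set E3} {i : ι}
    (hG : ∀ v ∈ P.body.extremePoints ℝ, ∀ w ∈ P.body.extremePoints ℝ, ∀ j : ι, i ≠ j →
      v ∈ P.face i ∩ P.face j → w ∈ P.face i ∩ P.face j → v ∈ G → w ∈ G)
    {v w : E3} (hv : v ∈ P.body.extremePoints ℝ) (hw : w ∈ P.body.extremePoints ℝ)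
    (hvi : v ∈ P.face i) (hwi : w ∈ P.face i) (hvG : v ∈ G) : w ∈ G := by
  classical
  by_contra hwG
  obtain ⟨W, hW⟩ : ∃ W : Submodule ℝ E3, W = (Submodule.span ℝ {P.n i})ᗮ := ⟨_, rfl⟩
  have hn : P.n i ≠ 0 := by
    intro h
    obtain ⟨x, hx⟩ := hP.interior
    have h1 := hx i
    have h2 := hvi.2
    rw [h, inner_zero_left] at h1 h2
    linarith
  have hfr : Module.finrank ℝ W = 2 := by
    haveI : Fact (Module.finrank ℝ E3 = 2 + 1) := ⟨by rw [finrank_euclideanSpace_fin]⟩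
    rw [hW]
    exact Submodule.finrank_orthogonal_span_singleton hn
  have memW : ∀ y : E3, y ∈ W ↔ inner ℝ (P.n i) y = 0 := by
    intro y
    rw [hW, Submodule.mem_orthogonal_singleton_iff_inner_right]
  have hf : Continuous fun y : W => v + (y : E3) := continuous_const.add continuous_subtype_val
  obtain ⟨K, hK⟩ : ∃ K : Set W, K = {y : W | v + (y : E3) ∈ P.body} := ⟨_, rfl⟩
  have memK : ∀ y : W, y ∈ K ↔ v + (y : E3) ∈ P.body := fun y => by rw [hK]; rfl
  have hKeq : ∀ y : W, inner ℝ (P.n i) (v + (y : E3)) = P.b i := fun y => by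
    rw [inner_add_right, (memW _).1 y.2, add_zero]
    exact hvi.2
  have hKcl : IsClosed K := by
    rw [hK]
    exact (body_closed P).preimage hf
  have hKconv : Convex ℝ K := by
    intro x hx y hy s t hs ht hst
    rw [memK] at hx hy ⊢
    have h1 : v + ((s • x + t • y : W) : E3) = s • (v + (x : E3)) + t • (v + (y : E3)) := by
      have h2 : v = s • v + t • v := by rw [← add_smul, hst, one_smul]
      push_cast
      conv_lhs => rw [h2]
      rw [smul_add, smul_add]
      abel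
    rw [h1]
    exact body_convex P hx hy hs ht hst
  have hKb : Bornology.IsBounded K := by
    obtain ⟨R, hR⟩ := isBounded_iff_forall_norm_le.1 hP.bounded
    refine isBounded_iff_forall_norm_le.2 ⟨R + ‖v‖, fun y hy => ?_⟩
    have h1 := hR _ ((memK y).1 hy)
    have h2 : (y : E3) = (v + (y : E3)) - v := by abel
    have h3 : ‖y‖ = ‖(y : E3)‖ := rfl
    rw [h3, h2]
    exact (norm_sub_le _ _).trans (by linarith)
  have h0K : (0 : W) ∈ K := by
    rw [memK]
    simpa using hvi.1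
  have hKint : (interior K).Nonempty := by
    rw [hKconv.interior_nonempty_iff_affineSpan_eq_top,
      AffineSubspace.affineSpan_eq_top_iff_vectorSpan_eq_top_of_nonempty ℝ W W ⟨0, h0K⟩]
    apply Submodule.eq_top_of_finrank_eq
    rw [hfr, ← Submodule.finrank_map_subtype_eq]
    obtain ⟨g, hg⟩ : ∃ g : W →ᵃ[ℝ] E3, g = AffineMap.const ℝ W v + W.subtype.toAffineMap := ⟨_, rfl⟩
    have hgl : g.linear = W.subtype := by
      rw [hg]
      simp
    have hgi : g '' K = P.face i := by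
      ext x
      constructor
      · rintro ⟨y, hy, rfl⟩
        have h1 : g y = v + (y : E3) := by rw [hg]; simp
        rw [h1]
        exact ⟨(memK y).1 hy, hKeq y⟩
      · intro hx
        refine ⟨⟨x - v, (memW _).2 (by rw [inner_sub_right, hx.2, hvi.2, sub_self])⟩, ?_, ?_⟩
        · rw [memK]
          simpa using hx.1
        · rw [hg]
          simp
    rw [← hgl, AffineMap.map_vectorSpan, hgi]
    exact hP.dim i
  have hpre : IsPreconnected (frontier K) := by
    obtain ⟨p, hp⟩ := hKint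
    have hr : 1 < Module.rank ℝ W := by
      rw [← Module.finrank_eq_rank, hfr]
      norm_num
    have h := frontier_sdiff_preconnected hr hKconv ⟨p, hp⟩ hKb p
    have h2 : frontier K \ {p} = frontier K := by
      rw [Set.sdiff_singleton_eq_self]
      intro h3
      exact h3.2 hp
    rwa [h2] at h
  -- points of the frontier are in another panel
  have hfrK : ∀ y ∈ frontier K, ∃ j, i ≠ j ∧ v + (y : E3) ∈ P.face j := by
    intro y hy
    have hyK : v + (y : E3) ∈ P.body := (memK y).1 (hKcl.frontier_subset hy)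
    by_contra h
    push Not at h
    have hopen : IsOpen {y : W | ∀ j, i ≠ j → inner ℝ (P.n j) (v + (y : E3)) < P.b j} := by
      have : {y : W | ∀ j, i ≠ j → inner ℝ (P.n j) (v + (y : E3)) < P.b j} =
          ⋂ j ∈ {j | i ≠ j}, {y : W | inner ℝ (P.n j) (v + (y : E3)) < P.b j} := by
        ext
        simp
      rw [this]
      exact Set.Finite.isOpen_biInter (Set.toFinite _) fun j _ =>
        isOpen_lt (Continuous.inner continuous_const hf) continuous_const
    refine hy.2 (interior_maximal (fun z hz => (memK z).2 fun j => ?_) hopen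
      fun j hj => lt_of_le_of_ne (hyK j) fun he => h j hj ⟨hyK, he⟩)
    by_cases hij : i = j
    · subst hij
      exact (hKeq z).le
    · exact (hz j hij).le
  -- vertices are in the frontier
  have hvert : ∀ u ∈ P.body.extremePoints ℝ, ∀ hu : u ∈ P.face i, ∃ y : W, y ∈ frontier K ∧ v + (y : E3) = u := by
    intro u hu hui
    have hmem : u - v ∈ W := (memW _).2 (by rw [inner_sub_right, hui.2, hvi.2, sub_self])
    have huv : v + (u - v) = u := by abel
    refine ⟨⟨u - v, hmem⟩, ⟨subset_closure ?_, fun hint => ?_⟩, huv⟩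
    · rw [memK]
      show v + (u - v) ∈ P.body
      rw [huv]
      exact hui.1
    · obtain ⟨e, he⟩ : ∃ e : W, e ≠ 0 :=
        Module.finrank_pos_iff_exists_ne_zero.1 (by rw [hfr]; norm_num)
      have hcont : ContinuousAt (fun ε : ℝ => (⟨u - v, hmem⟩ : W) + ε • e) 0 := by fun_prop
      have h5 : (fun ε : ℝ => (⟨u - v, hmem⟩ : W) + ε • e) 0 = ⟨u - v, hmem⟩ := by simp
      have hev : ∀ᶠ ε in 𝓝 (0 : ℝ), (⟨u - v, hmem⟩ : W) + ε • e ∈ K := by
        have h6 : K ∈ 𝓝 ((fun ε : ℝ => (⟨u - v, hmem⟩ : W) + ε • e) 0) := by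
          rw [h5]
          exact mem_interior_iff_mem_nhds.1 hint
        exact hcont.eventually_mem h6
      rw [Metric.eventually_nhds_iff] at hev
      obtain ⟨δ, hδ, hε⟩ := hev
      have hin : ∀ ε : ℝ, |ε| < δ → u + ε • (e : E3) ∈ P.body := by
        intro ε hε'
        have h7 := (memK _).1 (hε (by rw [dist_zero_right]; exact hε'))
        have h8 : v + (((⟨u - v, hmem⟩ : W) + ε • e : W) : E3) = u + ε • (e : E3) := by
          push_cast
          abel
        rwa [h8] at h7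
      have h1 := hin (δ / 2) (by rw [abs_of_pos (by positivity)]; linarith)
      have h2 := hin (-(δ / 2)) (by rw [abs_neg, abs_of_pos (by positivity)]; linarith)
      have h3 : u ∈ openSegment ℝ (u + (δ / 2) • (e : E3)) (u + (-(δ / 2)) • (e : E3)) := by
        refine ⟨1 / 2, 1 / 2, by norm_num, by norm_num, by norm_num, ?_⟩
        module
      have h4 := (mem_extremePoints.1 hu).2 _ h1 _ h2 h3
      have h5 : u + (δ / 2) • (e : E3) = u := by
        first | exact h4.1 | exact h4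
      have h6 : (δ / 2) • (e : E3) = 0 := add_eq_left.1 h5
      rcases smul_eq_zero.1 h6 with h | h
      · linarith
      · exact he (Subtype.ext h)
  -- the two parts of the frontier
  obtain ⟨SA, hSA⟩ : ∃ SA : Set W, SA = (fun y : W => v + (y : E3)) ⁻¹'
    ⋃ j ∈ {j | i ≠ j ∧ ∃ u ∈ P.body.extremePoints ℝ, u ∈ P.face i ∩ P.face j ∧ u ∈ G}, P.face j := ⟨_, rfl⟩
  obtain ⟨SB, hSB⟩ : ∃ SB : Set W, SB = (fun y : W => v + (y : E3)) ⁻¹'
    ⋃ j ∈ {j | i ≠ j ∧ ∃ u ∈ P.body.extremePoints ℝ, u ∈ P.face i ∩ P.face j ∧ u ∉ G}, P.face j := ⟨_, rfl⟩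
  have clA : IsClosed SA := by
    rw [hSA]
    exact (Set.Finite.isClosed_biUnion (Set.toFinite _) fun l _ => face_closed P l).preimage hf
  have clB : IsClosed SB := by
    rw [hSB]
    exact (Set.Finite.isClosed_biUnion (Set.toFinite _) fun l _ => face_closed P l).preimage hf
  have memA : ∀ y : W, y ∈ SA ↔ ∃ j, (i ≠ j ∧ ∃ u ∈ P.body.extremePoints ℝ, u ∈ P.face i ∩ P.face j ∧ u ∈ G) ∧
      v + (y : E3) ∈ P.face j := by
    intro y
    rw [hSA]
    simp only [Set.mem_preimage, Set.mem_iUnion, Set.mem_ofPred_eq, exists_prop]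
  have memB : ∀ y : W, y ∈ SB ↔ ∃ j, (i ≠ j ∧ ∃ u ∈ P.body.extremePoints ℝ, u ∈ P.face i ∩ P.face j ∧ u ∉ G) ∧
      v + (y : E3) ∈ P.face j := by
    intro y
    rw [hSB]
    simp only [Set.mem_preimage, Set.mem_iUnion, Set.mem_ofPred_eq, exists_prop]
  have cover : frontier K ⊆ SA ∪ SB := by
    intro y hy
    obtain ⟨j, hij, hyj⟩ := hfrK y hy
    have hyi : v + (y : E3) ∈ P.face i := ⟨(memK y).1 (hKcl.frontier_subset hy), hKeq y⟩
    obtain ⟨u, hu, huS⟩ := exists_vertex hP ((face_closed P i).inter (face_closed P j))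
      ((face_extreme P i).inter (face_extreme P j)) ⟨_, hyi, hyj⟩
    by_cases huG : u ∈ G
    · exact Or.inl ((memA y).2 ⟨j, ⟨hij, u, hu, huS, huG⟩, hyj⟩)
    · exact Or.inr ((memB y).2 ⟨j, ⟨hij, u, hu, huS, huG⟩, hyj⟩)
  obtain ⟨yv, hyv, ev⟩ := hvert v hv hvi
  obtain ⟨yw, hyw, ew⟩ := hvert w hw hwi
  obtain ⟨jv, hjv, hjv2⟩ := hfrK yv hyv
  obtain ⟨jw, hjw, hjw2⟩ := hfrK yw hyw
  rw [isPreconnected_closed_iff] at hpre
  obtain ⟨y, hy1, hy2, hy3⟩ := hpre SA SB clA clB cover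
    ⟨yv, hyv, (memA yv).2 ⟨jv, ⟨hjv, v, hv, ⟨hvi, by rwa [ev] at hjv2⟩, hvG⟩, hjv2⟩⟩
    ⟨yw, hyw, (memB yw).2 ⟨jw, ⟨hjw, w, hw, ⟨hwi, by rwa [ew] at hjw2⟩, hwG⟩, hjw2⟩⟩
  obtain ⟨j, ⟨hij, a, ha, haS, haG⟩, hyj⟩ := (memA y).1 hy2
  obtain ⟨k, ⟨hik, b, hb, hbS, hbG⟩, hyk⟩ := (memB y).1 hy3
  have hyi : v + (y : E3) ∈ P.face i := ⟨(memK y).1 (hKcl.frontier_subset hy1), hKeq y⟩
  obtain ⟨u, hu, huS⟩ := exists_vertex hP
    (((face_closed P i).inter (face_closed P j)).inter (face_closed P k))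
    (((face_extreme P i).inter (face_extreme P j)).inter (face_extreme P k)) ⟨_, ⟨hyi, hyj⟩, hyk⟩
  have huG : u ∈ G := hG a ha u hu j hij haS huS.1 haG
  exact hbG (hG u hu b hb k hik ⟨huS.1.1, huS.2⟩ hbS huG)

theorem t_CON : Pool.Agent.V5helper79.PQ.S_CON := by
  classical
  intro ι _ P hP G hG hex w hw
  obtain ⟨v, hv, hvG⟩ := hex
  by_contra hwG
  have hpanel : ∀ i : ι, ∀ a ∈ P.body.extremePoints ℝ, ∀ b ∈ P.body.extremePoints ℝ, a ∈ P.face i →
      b ∈ P.face i → a ∈ G → b ∈ G := fun i a ha b hb hai hbi haG =>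
    panel_vertices hP (fun v hv w hw j hij => hG v hv w hw i j hij) ha hb hai hbi haG
  have hin : ∀ u ∈ P.body.extremePoints ℝ, ∃ l, u ∈ P.face l := by
    intro u hu
    by_contra h
    push Not at h
    have h1 : (EuclideanSpace.single (0 : Fin 3) (1 : ℝ) : E3) = 0 :=
      normals_span hu fun l hl => absurd hl (h l)
    have h2 := congrArg (fun x : E3 => x 0) h1
    simp at h2
  obtain ⟨SA, hSA⟩ : ∃ SA : Set E3, SA =
    ⋃ l ∈ {l | ∃ u ∈ P.body.extremePoints ℝ, u ∈ P.face l ∧ u ∈ G}, P.face l := ⟨_, rfl⟩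
  obtain ⟨SB, hSB⟩ : ∃ SB : Set E3, SB =
    ⋃ l ∈ {l | ∃ u ∈ P.body.extremePoints ℝ, u ∈ P.face l ∧ u ∉ G}, P.face l := ⟨_, rfl⟩
  have clA : IsClosed SA := by
    rw [hSA]
    exact Set.Finite.isClosed_biUnion (Set.toFinite _) fun l _ => face_closed P l
  have clB : IsClosed SB := by
    rw [hSB]
    exact Set.Finite.isClosed_biUnion (Set.toFinite _) fun l _ => face_closed P l
  have memA : ∀ y, y ∈ SA ↔ ∃ l, (∃ u ∈ P.body.extremePoints ℝ, u ∈ P.face l ∧ u ∈ G) ∧ y ∈ P.face l := by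
    intro y
    rw [hSA]
    simp only [Set.mem_iUnion, Set.mem_ofPred_eq, exists_prop]
  have memB : ∀ y, y ∈ SB ↔ ∃ l, (∃ u ∈ P.body.extremePoints ℝ, u ∈ P.face l ∧ u ∉ G) ∧ y ∈ P.face l := by
    intro y
    rw [hSB]
    simp only [Set.mem_iUnion, Set.mem_ofPred_eq, exists_prop]
  have cover : frontier P.body ⊆ SA ∪ SB := by
    intro y hy
    have hyQ : y ∈ P.body := (body_closed P).frontier_subset hy
    have h5 : ∃ l, y ∈ P.face l := by
      by_contra h
      push Not at h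
      have hopen : IsOpen {w : E3 | ∀ i, inner ℝ (P.n i) w < P.b i} := by
        have : {w : E3 | ∀ i, inner ℝ (P.n i) w < P.b i} = ⋂ i, {w : E3 | inner ℝ (P.n i) w < P.b i} := by
          ext; simp
        rw [this]
        exact isOpen_iInter_of_finite fun i => isOpen_lt (by fun_prop) continuous_const
      exact hy.2 (interior_maximal (fun z hz i => (hz i).le) hopen
        fun l => lt_of_le_of_ne (hyQ l) fun he => h l ⟨hyQ, he⟩)
    obtain ⟨l, hl⟩ := h5
    obtain ⟨u, hu, huS⟩ := exists_vertex hP (face_closed P l) (face_extreme P l) ⟨_, hl⟩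
    by_cases huG : u ∈ G
    · exact Or.inl ((memA y).2 ⟨l, ⟨u, hu, huS, huG⟩, hl⟩)
    · exact Or.inr ((memB y).2 ⟨l, ⟨u, hu, huS, huG⟩, hl⟩)
  have hpre := frontier_pre hP
  rw [isPreconnected_closed_iff] at hpre
  obtain ⟨lv, hlv⟩ := hin v hv
  obtain ⟨lw, hlw⟩ := hin w hw
  obtain ⟨y, hy1, hy2, hy3⟩ := hpre SA SB clA clB cover
    ⟨v, face_frontier hP lv hlv, (memA v).2 ⟨lv, ⟨v, hv, hlv, hvG⟩, hlv⟩⟩
    ⟨w, face_frontier hP lw hlw, (memB w).2 ⟨lw, ⟨w, hw, hlw, hwG⟩, hlw⟩⟩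
  obtain ⟨l, ⟨a, ha, hal, haG⟩, hyl⟩ := (memA y).1 hy2
  obtain ⟨m, ⟨b, hb, hbm, hbG⟩, hym⟩ := (memB y).1 hy3
  obtain ⟨u, hu, huS⟩ := exists_vertex hP ((face_closed P l).inter (face_closed P m))
    ((face_extreme P l).inter (face_extreme P m)) ⟨_, hyl, hym⟩
  exact hbG (hpanel m u hu b hb huS.2 hbm (hpanel l a ha u hu hal huS.1 haG))

end V5helper4.PQ
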